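import Pool.Agent.H90Cyc.CycDefs

set_option autoImplicit false

namespace Pool.Agent.CycL

open Pool.Agent.H90Cyc SimpleGraph

/-- the cycles (edge sets) of `G` through the edge `e` -/
def thru {V : Type} (G : SimpleGraph V) (e : Sym2 V) : Set (Set (Sym2 V)) :=
  {C | C ∈ cycleSet G ∧ e ∈ C}

/-- a cycle through the edge `s t` is a path from `t` to `s` plus the edge -/
lemma path_of_cycle {V : Type} [DecidableEq V] {G : SimpleGraph V} {s t : V} {C : Set (Sym2 V)}
    (hC : C ∈ thru G s(s, t)) : ∃ P : G.Walk t s, P.IsPath ∧ s(s, t) ∉ P.edges ∧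
      C = {e | e ∈ P.edges} ∪ {s(s, t)} := by
  obtain ⟨⟨v, p, hp, rfl⟩, he⟩ := hC
  have he' : s(s, t) ∈ p.edges := he
  -- orient
  obtain ⟨v, p, hp, hd, hset⟩ : ∃ (w : V) (p' : G.Walk w w), p'.IsCycle ∧
      (∃ d ∈ p'.darts, d.fst = s ∧ d.snd = t) ∧ {e | e ∈ p.edges} = {e | e ∈ p'.edges} := by
    rw [Walk.edges, List.mem_map] at he'
    obtain ⟨d, hd, hde⟩ := he'
    have hdd : s(d.fst, d.snd) = s(s, t) := hde
    rw [Sym2.eq_iff] at hdd
    rcases hdd with ⟨h1, h2⟩ | ⟨h1, h2⟩
    · exact ⟨v, p, hp, ⟨d, hd, h1, h2⟩, rfl⟩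
    · refine ⟨v, p.reverse, hp.reverse, ⟨d.symm, ?_, ?_, ?_⟩, ?_⟩
      · rw [Walk.darts_reverse, List.mem_reverse, List.mem_map]
        exact ⟨d, hd, rfl⟩
      · exact h2
      · exact h1
      · ext e
        simp
  rw [hset]
  obtain ⟨d, hd, hds, hdt⟩ := hd
  have hs : s ∈ p.support := by
    rw [← hds]; exact p.dart_fst_mem_support_of_mem_darts hd
  have hrot := hp.rotate hs
  have hrd : d ∈ (p.rotate _ hs).darts := by
    have := (p.rotate_darts s hs).mem_iff (a := d)
    exact this.2 hd
  have hre : {e | e ∈ p.edges} = {e | e ∈ (p.rotate _ hs).edges} := by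
    ext e
    have := (p.rotate_edges s hs).mem_iff (a := e)
    exact this.symm
  rw [hre]
  generalize hq : p.rotate _ hs = r at hrot hrd
  cases r with
  | nil => exact absurd hrot (by simp)
  | @cons _ w _ h q =>
    rw [Walk.cons_isCycle_iff] at hrot
    rw [Walk.darts_cons, List.mem_cons] at hrd
    rcases hrd with hrd | hrd
    · have hw : w = t := by
        rw [← hdt, hrd]
      subst hw
      refine ⟨q, hrot.1, hrot.2, ?_⟩
      ext e
      simp only [Walk.edges_cons, List.mem_cons, Set.mem_ofPred_eq, Set.mem_union,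
        Set.mem_singleton_iff]
      tauto
    · exfalso
      -- `s` would be repeated in the path `q`
      have h1 : d.fst ∈ q.darts.map (·.fst) := List.mem_map.2 ⟨d, hrd, rfl⟩
      rw [hds, Walk.map_fst_darts] at h1
      have h2 := hrot.1.support_nodup
      have h3 : q.support = q.support.dropLast ++ [s] := by
        have := List.dropLast_append_getLast q.support_ne_nil
        rw [Walk.getLast_support] at this
        exact this.symm
      rw [h3, List.nodup_append] at h2
      exact h2.2.2 s h1 s (by simp) rfl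

end Pool.Agent.CycL
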