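import Pool.Agent.CycL.Glue

set_option autoImplicit false

namespace Pool.Agent.CycL

open Pool.Agent.H90Cyc SimpleGraph

variable {V₁ V₂ W : Type}

/-- the edges of the glued graph -/
def gE (G₁ : SimpleGraph V₁) (G₂ : SimpleGraph V₂) (i : V₁ → W) (j : V₂ → W) (s t : V₁)
    (s' t' : V₂) : Set (Sym2 W) :=
  (Sym2.map i '' (G₁.edgeSet \ {s(s, t)})) ∪ (Sym2.map j '' (G₂.edgeSet \ {s(s', t')}))
    ∪ {s(j s', i t), s(i s, j t')}

/-- the glued graph -/
def gG (G₁ : SimpleGraph V₁) (G₂ : SimpleGraph V₂) (i : V₁ → W) (j : V₂ → W) (s t : V₁)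
    (s' t' : V₂) : SimpleGraph W := SimpleGraph.fromEdgeSet (gE G₁ G₂ i j s t s' t')

/-- the glued cycle -/
def gC (i : V₁ → W) (j : V₂ → W) (s t : V₁) (s' t' : V₂) (C : Set (Sym2 V₁)) (C' : Set (Sym2 V₂)) :
    Set (Sym2 W) :=
  (Sym2.map i '' (C \ {s(s, t)})) ∪ (Sym2.map j '' (C' \ {s(s', t')}))
    ∪ {s(j s', i t), s(i s, j t')}

section

variable {G₁ : SimpleGraph V₁} {G₂ : SimpleGraph V₂} {i : V₁ → W} {j : V₂ → W} {s t : V₁}
    {s' t' : V₂}

lemma map_ne {e : Sym2 V₁} {e' : Sym2 V₂} (hij : ∀ a b, i a ≠ j b) : Sym2.map i e ≠ Sym2.map j e' := by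
  induction e with
  | _ a b =>
    induction e' with
    | _ c d =>
      rw [Sym2.map_mk, Sym2.map_mk]
      intro h
      rw [Sym2.eq_iff] at h
      rcases h with ⟨h1, _⟩ | ⟨h1, _⟩
      · exact hij _ _ h1
      · exact hij _ _ h1

lemma map_ne1 {e : Sym2 V₁} {a : V₂} {b : V₁} (hij : ∀ a b, i a ≠ j b) : Sym2.map i e ≠ s(j a, i b) := by
  induction e with
  | _ c d =>
    rw [Sym2.map_mk]
    intro h
    rw [Sym2.eq_iff] at h
    rcases h with ⟨h1, _⟩ | ⟨_, h1⟩
    · exact hij _ _ h1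
    · exact hij _ _ h1

lemma map_ne2 {e : Sym2 V₂} {a : V₂} {b : V₁} (hij : ∀ a b, i a ≠ j b) : Sym2.map j e ≠ s(j a, i b) := by
  induction e with
  | _ c d =>
    rw [Sym2.map_mk]
    intro h
    rw [Sym2.eq_iff] at h
    rcases h with ⟨_, h1⟩ | ⟨h1, _⟩
    · exact hij _ _ h1.symm
    · exact hij _ _ h1.symm

lemma map_ne1' {e : Sym2 V₁} {a : V₂} {b : V₁} (hij : ∀ a b, i a ≠ j b) : Sym2.map i e ≠ s(i b, j a) := by
  rw [Sym2.eq_swap]; exact map_ne1 hij

lemma map_ne2' {e : Sym2 V₂} {a : V₂} {b : V₁} (hij : ∀ a b, i a ≠ j b) : Sym2.map j e ≠ s(i b, j a) := by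
  rw [Sym2.eq_swap]; exact map_ne2 hij

lemma edge_ne (hst : s ≠ t) (hi : Function.Injective i) (hij : ∀ a b, i a ≠ j b) :
    s(j s', i t) ≠ s(i s, j t') := by
  intro h
  rw [Sym2.eq_iff] at h
  rcases h with ⟨h1, _⟩ | ⟨_, h1⟩
  · exact hij _ _ h1.symm
  · exact hst (hi h1.symm)

lemma gE_edgeSet (hi : Function.Injective i) (hj : Function.Injective j) (hij : ∀ a b, i a ≠ j b) :
    (gG G₁ G₂ i j s t s' t').edgeSet = gE G₁ G₂ i j s t s' t' := by
  unfold gG
  rw [SimpleGraph.edgeSet_fromEdgeSet]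
  ext e
  simp only [Set.mem_sdiff]
  constructor
  · exact fun h => h.1
  · intro h
    refine ⟨h, ?_⟩
    rcases h with (⟨e', ⟨he, _⟩, rfl⟩ | ⟨e', ⟨he, _⟩, rfl⟩) | h
    · induction e' with
      | _ a b =>
        rw [Sym2.map_mk]
        intro hd
        have hd' : i a = i b := hd
        exact (G₁.ne_of_adj he) (hi hd')
    · induction e' with
      | _ a b =>
        rw [Sym2.map_mk]
        intro hd
        have hd' : j a = j b := hd
        exact (G₂.ne_of_adj he) (hj hd')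
    · rcases h with rfl | h
      · intro hd
        have hd' : j s' = i t := hd
        exact hij _ _ hd'.symm
      · rw [Set.mem_singleton_iff] at h
        subst h
        intro hd
        have hd' : i s = j t' := hd
        exact hij _ _ hd'

lemma gE_ncard [Finite V₁] [Finite V₂] (hi : Function.Injective i) (hj : Function.Injective j)
    (hij : ∀ a b, i a ≠ j b) (h1 : G₁.Adj s t) (h2 : G₂.Adj s' t') :
    (gG G₁ G₂ i j s t s' t').edgeSet.ncard = G₁.edgeSet.ncard + G₂.edgeSet.ncard := by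
  rw [gE_edgeSet hi hj hij]
  unfold gE
  have f1 : (Sym2.map i '' (G₁.edgeSet \ {s(s, t)})).Finite := Set.toFinite _
  have f2 : (Sym2.map j '' (G₂.edgeSet \ {s(s', t')})).Finite := Set.toFinite _
  rw [Set.ncard_union_eq _ (f1.union f2) (Set.toFinite _), Set.ncard_union_eq _ f1 f2,
    Set.ncard_image_of_injective _ (Sym2.map.injective hi),
    Set.ncard_image_of_injective _ (Sym2.map.injective hj),
    Set.ncard_pair (edge_ne h1.ne hi hij)]
  · have e1 := Set.ncard_sdiff_singleton_add_one (s := G₁.edgeSet) (a := s(s, t)) h1 (Set.toFinite _)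
    have e2 := Set.ncard_sdiff_singleton_add_one (s := G₂.edgeSet) (a := s(s', t')) h2 (Set.toFinite _)
    omega
  · rw [Set.disjoint_left]
    rintro _ ⟨e, _, rfl⟩ ⟨e', _, h⟩
    exact map_ne hij h.symm
  · rw [Set.disjoint_left]
    rintro _ (⟨e, _, rfl⟩ | ⟨e, _, rfl⟩) h
    · rcases h with h | h
      · exact map_ne1 hij h
      · exact map_ne1' hij h
    · rcases h with h | h
      · exact map_ne2 hij h
      · exact map_ne2' hij h

/-- the hom of the first graph without its edge -/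
def hom1 (hi : Function.Injective i) : (G₁.deleteEdges {s(s, t)}) →g (gG G₁ G₂ i j s t s' t') where
  toFun := i
  map_rel' := by
    intro a b h
    rw [SimpleGraph.deleteEdges_adj] at h
    unfold gG
    rw [SimpleGraph.fromEdgeSet_adj]
    refine ⟨Or.inl (Or.inl ⟨s(a, b), ⟨h.1, h.2⟩, rfl⟩), fun hab => h.1.ne (hi hab)⟩

/-- the hom of the second graph without its edge -/
def hom2 (hj : Function.Injective j) : (G₂.deleteEdges {s(s', t')}) →g (gG G₁ G₂ i j s t s' t') where
  toFun := j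
  map_rel' := by
    intro a b h
    rw [SimpleGraph.deleteEdges_adj] at h
    unfold gG
    rw [SimpleGraph.fromEdgeSet_adj]
    refine ⟨Or.inl (Or.inr ⟨s(a, b), ⟨h.1, h.2⟩, rfl⟩), fun hab => h.1.ne (hj hab)⟩

lemma gC_mem [DecidableEq V₁] [DecidableEq V₂] (hi : Function.Injective i)
    (hj : Function.Injective j) (hij : ∀ a b, i a ≠ j b) (hst : s ≠ t)
    {C : Set (Sym2 V₁)} {C' : Set (Sym2 V₂)} (hC : C ∈ thru G₁ s(s, t)) (hC' : C' ∈ thru G₂ s(s', t')) :
    gC i j s t s' t' C C' ∈ thru (gG G₁ G₂ i j s t s' t') s(j s', i t) := by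
  obtain ⟨P, hP, hPe, rfl⟩ := path_of_cycle hC
  obtain ⟨P', hP', hPe', rfl⟩ := path_of_cycle hC'
  have a1 : (gG G₁ G₂ i j s t s' t').Adj (j s') (i t) := by
    unfold gG
    rw [SimpleGraph.fromEdgeSet_adj]
    exact ⟨Or.inr (Or.inl rfl), fun h => hij _ _ h.symm⟩
  have a2 : (gG G₁ G₂ i j s t s' t').Adj (i s) (j t') := by
    unfold gG
    rw [SimpleGraph.fromEdgeSet_adj]
    exact ⟨Or.inr (Or.inr rfl), fun h => hij _ _ h⟩
  let Q : (gG G₁ G₂ i j s t s' t').Walk (i t) (i s) := (P.toDeleteEdge s(s, t) hPe).map (hom1 hi)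
  let Q' : (gG G₁ G₂ i j s t s' t').Walk (j t') (j s') :=
    (P'.toDeleteEdge s(s', t') hPe').map (hom2 hj)
  have hQ : Q.IsPath := (hP.toDeleteEdges _ _ _).map hi
  have hQ' : Q'.IsPath := (hP'.toDeleteEdges _ _ _).map hj
  have eQ : Q.edges = P.edges.map (Sym2.map i) := by
    show ((P.toDeleteEdge s(s, t) hPe).map (hom1 hi)).edges = _
    rw [Walk.edges_map]
    congr 1
    exact Walk.edges_transfer _ _
  have eQ' : Q'.edges = P'.edges.map (Sym2.map j) := by
    show ((P'.toDeleteEdge s(s', t') hPe').map (hom2 hj)).edges = _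
    rw [Walk.edges_map]
    congr 1
    exact Walk.edges_transfer _ _
  have sQ : ∀ x ∈ Q.support, ∃ a, x = i a := by
    intro x hx
    have : x ∈ ((P.toDeleteEdge s(s, t) hPe).map (hom1 (G₂ := G₂) (j := j) (s' := s') (t' := t') hi)).support := hx
    rw [Walk.support_map, List.mem_map] at this
    obtain ⟨a, _, ha⟩ := this
    exact ⟨a, ha.symm⟩
  have sQ' : ∀ x ∈ Q'.support, ∃ a, x = j a := by
    intro x hx
    have : x ∈ ((P'.toDeleteEdge s(s', t') hPe').map (hom2 (G₁ := G₁) (i := i) (s := s) (t := t) hj)).support := hx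
    rw [Walk.support_map, List.mem_map] at this
    obtain ⟨a, _, ha⟩ := this
    exact ⟨a, ha.symm⟩
  let R : (gG G₁ G₂ i j s t s' t').Walk (j s') (j s') := Walk.cons a1 (Q.append (Walk.cons a2 Q'))
  have hR : R.IsCycle := by
    show (Walk.cons a1 (Q.append (Walk.cons a2 Q'))).IsCycle
    rw [Walk.cons_isCycle_iff]
    constructor
    · rw [Walk.isPath_def, Walk.support_append, Walk.support_cons, List.tail_cons,
        List.nodup_append]
      refine ⟨hQ.support_nodup, hQ'.support_nodup, ?_⟩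
      intro a ha b hb hab
      obtain ⟨x, hx⟩ := sQ a ha
      obtain ⟨y, hy⟩ := sQ' b hb
      exact hij x y (by rw [← hx, ← hy, hab])
    · rw [Walk.edges_append, List.mem_append, Walk.edges_cons, List.mem_cons, eQ, eQ']
      rintro (h | h | h)
      · rw [List.mem_map] at h
        obtain ⟨e, _, he⟩ := h
        exact map_ne1 hij he
      · exact edge_ne hst hi hij h
      · rw [List.mem_map] at h
        obtain ⟨e, _, he⟩ := h
        exact map_ne2 hij he
  refine ⟨⟨_, R, hR, ?_⟩, ?_⟩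
  · ext e
    have hRe : e ∈ R.edges ↔ e = s(j s', i t) ∨ e ∈ Q.edges ∨ e = s(i s, j t') ∨ e ∈ Q'.edges := by
      show e ∈ (Walk.cons a1 (Q.append (Walk.cons a2 Q'))).edges ↔ _
      rw [Walk.edges_cons, List.mem_cons, Walk.edges_append, List.mem_append, Walk.edges_cons,
        List.mem_cons]
    show _ ↔ e ∈ R.edges
    rw [hRe, eQ, eQ', List.mem_map, List.mem_map]
    unfold gC
    constructor
    · rintro ((⟨e', ⟨he, hne⟩, rfl⟩ | ⟨e', ⟨he, hne⟩, rfl⟩) | h)
      · rcases he with he | he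
        · exact Or.inr (Or.inl ⟨e', he, rfl⟩)
        · exact absurd he hne
      · rcases he with he | he
        · exact Or.inr (Or.inr (Or.inr ⟨e', he, rfl⟩))
        · exact absurd he hne
      · rcases h with h | h
        · exact Or.inl h
        · exact Or.inr (Or.inr (Or.inl h))
    · rintro (h | ⟨e', he, rfl⟩ | h | ⟨e', he, rfl⟩)
      · exact Or.inr (Or.inl h)
      · refine Or.inl (Or.inl ⟨e', ⟨Or.inl he, ?_⟩, rfl⟩)
        intro h
        rw [Set.mem_singleton_iff] at h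
        rw [h] at he
        exact hPe he
      · exact Or.inr (Or.inr h)
      · refine Or.inl (Or.inr ⟨e', ⟨Or.inl he, ?_⟩, rfl⟩)
        intro h
        rw [Set.mem_singleton_iff] at h
        rw [h] at he
        exact hPe' he
  · exact Or.inr (Or.inl rfl)

/-- recovering the first cycle -/
lemma gC_rec1 (hi : Function.Injective i) (hij : ∀ a b, i a ≠ j b) {C : Set (Sym2 V₁)}
    {C' : Set (Sym2 V₂)} (he : s(s, t) ∈ C) (e : Sym2 V₁) :
    e ∈ C ↔ e = s(s, t) ∨ Sym2.map i e ∈ gC i j s t s' t' C C' := by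
  unfold gC
  constructor
  · intro h
    by_cases h1 : e = s(s, t)
    · exact Or.inl h1
    · exact Or.inr (Or.inl (Or.inl ⟨e, ⟨h, h1⟩, rfl⟩))
  · rintro (rfl | ((⟨e', ⟨h, _⟩, h2⟩ | ⟨e', _, h2⟩) | h))
    · exact he
    · rw [← Sym2.map.injective hi h2]; exact h
    · exact absurd h2.symm (map_ne hij)
    · rcases h with h | h
      · exact absurd h (map_ne1 hij)
      · exact absurd h (map_ne1' hij)

lemma gC_rec2 (hj : Function.Injective j) (hij : ∀ a b, i a ≠ j b) {C : Set (Sym2 V₁)}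
    {C' : Set (Sym2 V₂)} (he : s(s', t') ∈ C') (e : Sym2 V₂) :
    e ∈ C' ↔ e = s(s', t') ∨ Sym2.map j e ∈ gC i j s t s' t' C C' := by
  unfold gC
  constructor
  · intro h
    by_cases h1 : e = s(s', t')
    · exact Or.inl h1
    · exact Or.inr (Or.inl (Or.inr ⟨e, ⟨h, h1⟩, rfl⟩))
  · rintro (rfl | ((⟨e', _, h2⟩ | ⟨e', ⟨h, _⟩, h2⟩) | h))
    · exact he
    · exact absurd h2 (map_ne hij)
    · rw [← Sym2.map.injective hj h2]; exact h
    · rcases h with h | h
      · exact absurd h (map_ne2 hij)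
      · exact absurd h (map_ne2' hij)

lemma thru_mul [Finite V₁] [Finite V₂] [Finite W] (hi : Function.Injective i)
    (hj : Function.Injective j) (hij : ∀ a b, i a ≠ j b) (hst : s ≠ t) :
    (thru G₁ s(s, t)).ncard * (thru G₂ s(s', t')).ncard
      ≤ (thru (gG G₁ G₂ i j s t s' t') s(j s', i t)).ncard := by
  classical
  rw [← Set.ncard_prod]
  apply Set.ncard_le_ncard_of_injOn (fun p => gC i j s t s' t' p.1 p.2) _ _ (Set.toFinite _)
  · rintro ⟨C, C'⟩ ⟨h1, h2⟩
    exact gC_mem hi hj hij hst h1 h2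
  · rintro ⟨C, C'⟩ ⟨h1, h2⟩ ⟨D, D'⟩ ⟨h3, h4⟩ h
    have h' : gC i j s t s' t' C C' = gC i j s t s' t' D D' := h
    have e1 : C = D := by
      ext e
      rw [gC_rec1 (C' := C') (s' := s') (t' := t') hi hij h1.2 e, h',
        ← gC_rec1 (C' := D') (s' := s') (t' := t') hi hij h3.2 e]
    have e2 : C' = D' := by
      ext e
      rw [gC_rec2 (C := C) (s := s) (t := t) hj hij h2.2 e, h',
        ← gC_rec2 (C := D) (s := s) (t := t) hj hij h4.2 e]
    rw [e1, e2]

end

end Pool.Agent.CycL
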