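import Pool.Agent.CycL.Q

set_option autoImplicit false

namespace Pool.Agent.CycL

open Pool.Agent.H90Cyc Filter Topology

/-- `q`, set to `1` for fewer than three edges -/
noncomputable def Q (m : ℕ) : ℕ := if m < 3 then 1 else q m

lemma Q_pos (m : ℕ) : 1 ≤ Q m := by
  unfold Q
  split_ifs with h
  · exact le_rfl
  · exact q_three.trans (q_mono (by omega))

lemma Q_le (m : ℕ) : Q m ≤ 2 ^ m := by
  unfold Q
  split_ifs with h
  · exact Nat.one_le_two_pow
  · exact q_le m

lemma Q_mul (m n : ℕ) : Q m * Q n ≤ Q (m + n) := by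
  by_cases h1 : m < 3
  · have e1 : Q m = 1 := by unfold Q; rw [if_pos h1]
    rw [e1, one_mul]
    by_cases h2 : n < 3
    · have e2 : Q n = 1 := by unfold Q; rw [if_pos h2]
      rw [e2]; exact Q_pos _
    · have e2 : Q n = q n := by unfold Q; rw [if_neg h2]
      have e3 : Q (m + n) = q (m + n) := by unfold Q; rw [if_neg (by omega)]
      rw [e2, e3]; exact q_mono (by omega)
  · have e1 : Q m = q m := by unfold Q; rw [if_neg h1]
    have e3 : Q (m + n) = q (m + n) := by unfold Q; rw [if_neg (by omega)]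
    by_cases h2 : n < 3
    · have e2 : Q n = 1 := by unfold Q; rw [if_pos h2]
      rw [e1, e2, e3, mul_one]; exact q_mono (by omega)
    · have e2 : Q n = q n := by unfold Q; rw [if_neg h2]
      rw [e1, e2, e3]; exact q_mul m n

/-- the subadditive sequence -/
noncomputable def u (m : ℕ) : ℝ := - Real.log (Q m)

lemma u_sub : Subadditive u := by
  intro m n
  unfold u
  have h1 : (0 : ℝ) < Q m := by exact_mod_cast Q_pos m
  have h2 : (0 : ℝ) < Q n := by exact_mod_cast Q_pos n
  have h3 : ((Q m : ℝ) * Q n) ≤ Q (m + n) := by exact_mod_cast Q_mul m n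
  have h4 := Real.log_le_log (by positivity) h3
  rw [Real.log_mul h1.ne' h2.ne'] at h4
  linarith

lemma u_bdd : BddBelow (Set.range fun n => u n / n) := by
  refine ⟨- Real.log 2, ?_⟩
  rintro _ ⟨n, rfl⟩
  show - Real.log 2 ≤ u n / n
  rcases Nat.eq_zero_or_pos n with rfl | hn
  · simp only [Nat.cast_zero, div_zero]
    have := Real.log_nonneg (show (1 : ℝ) ≤ 2 by norm_num)
    linarith
  · have hn' : (0 : ℝ) < n := by exact_mod_cast hn
    rw [le_div_iff₀ hn']
    unfold u
    have h1 : (0 : ℝ) < Q n := by exact_mod_cast Q_pos n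
    have h2 : (Q n : ℝ) ≤ 2 ^ n := by exact_mod_cast Q_le n
    have h3 := Real.log_le_log h1 h2
    rw [Real.log_pow] at h3
    linarith

/-- the growth rate -/
noncomputable def kappa : ℝ := Real.exp (- u_sub.lim)

lemma kappa_pos : 0 < kappa := Real.exp_pos _

lemma Q_le_kappa (m : ℕ) (hm : m ≠ 0) : (Q m : ℝ) ≤ kappa ^ m := by
  have h1 := u_sub.lim_le_div u_bdd hm
  have hm' : (0 : ℝ) < m := by exact_mod_cast Nat.pos_of_ne_zero hm
  rw [le_div_iff₀ hm'] at h1
  have h2 : (0 : ℝ) < Q m := by exact_mod_cast Q_pos m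
  unfold kappa
  rw [← Real.exp_nat_mul, ← Real.log_le_iff_le_exp h2]
  have hu : u m = - Real.log (Q m) := rfl
  rw [hu] at h1
  have h3 : (m : ℝ) * -u_sub.lim = -(u_sub.lim * m) := by ring
  rw [h3]
  linarith

lemma q_le_kappa (m : ℕ) (hm : m ≠ 0) : (q m : ℝ) ≤ kappa ^ m := by
  have h1 : q m * q m * q m ≤ q (m + m + m) :=
    (Nat.mul_le_mul_right _ (q_mul m m)).trans (q_mul (m + m) m)
  have h2 : Q (m + m + m) = q (m + m + m) := by unfold Q; rw [if_neg (by omega)]
  have h3 := Q_le_kappa (m + m + m) (by omega)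
  rw [h2] at h3
  have h4 : ((q m : ℝ)) ^ 3 ≤ (kappa ^ m) ^ 3 := by
    have h5 : ((q m * q m * q m : ℕ) : ℝ) ≤ (q (m + m + m) : ℝ) := by exact_mod_cast h1
    push_cast at h5
    calc ((q m : ℝ)) ^ 3 = (q m : ℝ) * q m * q m := by ring
      _ ≤ q (m + m + m) := h5
      _ ≤ kappa ^ (m + m + m) := h3
      _ = (kappa ^ m) ^ 3 := by rw [← pow_mul]; congr 1; ring
  exact le_of_pow_le_pow_left₀ (by norm_num) (pow_nonneg kappa_pos.le _) h4

lemma maxCycles_le_kappa (m : ℕ) : (maxCycles m : ℝ) ≤ m / 3 * kappa ^ m := by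
  have h1 : 3 * (maxCycles m : ℝ) ≤ m * q m := by exact_mod_cast maxCycles_le m
  rcases Nat.eq_zero_or_pos m with rfl | hm
  · simp only [Nat.cast_zero, zero_mul] at h1
    simp only [Nat.cast_zero, zero_div, zero_mul]
    linarith
  · have h2 := q_le_kappa m (by omega)
    have h3 : (0 : ℝ) ≤ m := Nat.cast_nonneg m
    nlinarith

lemma tendsto_Q : Tendsto (fun m : ℕ => (Q m : ℝ) ^ ((1 : ℝ) / m)) atTop (𝓝 kappa) := by
  have h1 := u_sub.tendsto_lim u_bdd
  have h2 : Tendsto (fun m : ℕ => Real.exp (- (u m / m))) atTop (𝓝 kappa) :=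
    (Real.continuous_exp.tendsto _).comp h1.neg
  refine h2.congr fun m => ?_
  have h3 : (0 : ℝ) < Q m := by exact_mod_cast Q_pos m
  rw [Real.rpow_def_of_pos h3]
  congr 1
  unfold u
  ring

theorem tendsto_maxCycles : Tendsto (fun m : ℕ => (maxCycles m : ℝ) ^ ((1 : ℝ) / m)) atTop (𝓝 kappa) := by
  have h1 : Tendsto (fun m : ℕ => ((m : ℝ)) ^ ((1 : ℝ) / m) * (Q m : ℝ) ^ ((1 : ℝ) / m)) atTop
      (𝓝 (1 * kappa)) :=
    (tendsto_rpow_div.comp tendsto_natCast_atTop_atTop).mul tendsto_Q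
  rw [one_mul] at h1
  refine tendsto_of_tendsto_of_tendsto_of_le_of_le' tendsto_Q h1 ?_ ?_
  · filter_upwards [eventually_ge_atTop 3] with m hm
    have e1 : Q m = q m := by unfold Q; rw [if_neg (by omega)]
    apply Real.rpow_le_rpow (Nat.cast_nonneg _) _ (by positivity)
    rw [e1]
    exact_mod_cast q_le_maxCycles m
  · filter_upwards [eventually_ge_atTop 3] with m hm
    have e1 : Q m = q m := by unfold Q; rw [if_neg (by omega)]
    rw [← Real.mul_rpow (Nat.cast_nonneg _) (Nat.cast_nonneg _)]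
    apply Real.rpow_le_rpow (Nat.cast_nonneg _) _ (by positivity)
    rw [e1]
    have h2 := maxCycles_le m
    have h3 : maxCycles m ≤ m * q m := by omega
    exact_mod_cast h3

end Pool.Agent.CycL
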