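import Pool.Agent.CycL.Glue2

set_option autoImplicit false

namespace Pool.Agent.CycL

open Pool.Agent.H90Cyc SimpleGraph

lemma cycle_sub {V : Type} {G : SimpleGraph V} {C : Set (Sym2 V)} (h : C ∈ cycleSet G) :
    C ⊆ G.edgeSet := by
  obtain ⟨v, p, _, rfl⟩ := h
  intro e he
  exact p.edges_subset_edgeSet he

lemma cycleSet_ncard_le {V : Type} [Finite V] (G : SimpleGraph V) :
    (cycleSet G).ncard ≤ 2 ^ G.edgeSet.ncard := by
  rw [← Set.ncard_powerset _ (Set.toFinite _)]
  exact Set.ncard_le_ncard (fun C hC => cycle_sub hC) (Set.toFinite _)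

lemma thru_ncard_le {V : Type} [Finite V] (G : SimpleGraph V) (e : Sym2 V) :
    (thru G e).ncard ≤ (cycleSet G).ncard :=
  Set.ncard_le_ncard (fun _ hC => hC.1) (Set.toFinite _)

/-- numbers of cycles through an edge in graphs with `m` edges -/
def qset (m : ℕ) : Set ℕ :=
  {k | ∃ (n : ℕ) (G : SimpleGraph (Fin n)) (e : Sym2 (Fin n)), e ∈ G.edgeSet ∧
    G.edgeSet.ncard = m ∧ (thru G e).ncard = k}

/-- the largest number of cycles through one edge in a graph with `m` edges -/
noncomputable def q (m : ℕ) : ℕ := sSup (qset m)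

lemma qset_bdd (m : ℕ) : BddAbove (qset m) := by
  refine ⟨2 ^ m, ?_⟩
  rintro k ⟨n, G, e, _, hm, rfl⟩
  rw [← hm]
  exact (thru_ncard_le G e).trans (cycleSet_ncard_le G)

lemma le_q {n : ℕ} (G : SimpleGraph (Fin n)) {e : Sym2 (Fin n)} (he : e ∈ G.edgeSet) :
    (thru G e).ncard ≤ q G.edgeSet.ncard :=
  le_csSup (qset_bdd _) ⟨n, G, e, he, rfl, rfl⟩

lemma q_spec (m : ℕ) : q m = 0 ∨ ∃ (n : ℕ) (G : SimpleGraph (Fin n)) (e : Sym2 (Fin n)),
    e ∈ G.edgeSet ∧ G.edgeSet.ncard = m ∧ (thru G e).ncard = q m := by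
  rcases Set.eq_empty_or_nonempty (qset m) with h | h
  · left
    unfold q
    rw [h]; simp
  · right
    exact Nat.sSup_mem h (qset_bdd m)

lemma q_le (m : ℕ) : q m ≤ 2 ^ m := by
  rcases q_spec m with h | ⟨n, G, e, _, hm, hk⟩
  · rw [h]; exact Nat.zero_le _
  · rw [← hk]
    refine (thru_ncard_le G e).trans ?_
    have := cycleSet_ncard_le G
    rwa [hm] at this

/-- supermultiplicativity -/
lemma q_mul (m m' : ℕ) : q m * q m' ≤ q (m + m') := by
  rcases q_spec m with h | ⟨n, G, e, he, hm, hk⟩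
  · rw [h]; simp
  rcases q_spec m' with h | ⟨n', G', e', he', hm', hk'⟩
  · rw [h]; simp
  rw [← hk, ← hk']
  induction e with
  | _ s t =>
    induction e' with
    | _ s' t' =>
      have h1 : G.Adj s t := he
      have h2 : G'.Adj s' t' := he'
      have hi : Function.Injective (Fin.castAdd n' : Fin n → Fin (n + n')) :=
        Fin.castAdd_injective _ _
      have hj : Function.Injective (Fin.natAdd n : Fin n' → Fin (n + n')) :=
        Fin.natAdd_injective _ _
      have hij : ∀ (a : Fin n) (b : Fin n'), (Fin.castAdd n' a : Fin (n + n')) ≠ Fin.natAdd n b := by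
        intro a b hab
        have := congrArg Fin.val hab
        simp at this
        omega
      refine (thru_mul (G₁ := G) (G₂ := G') hi hj hij h1.ne).trans ?_
      have h3 := gE_ncard (G₁ := G) (G₂ := G') hi hj hij h1 h2
      rw [hm, hm'] at h3
      rw [← h3]
      apply le_q
      rw [gE_edgeSet hi hj hij]
      exact Or.inr (Or.inl rfl)

lemma cycleSet_map {V W : Type} {G : SimpleGraph V} {G' : SimpleGraph W} (f : G →g G')
    (hf : Function.Injective f) {C : Set (Sym2 V)} (hC : C ∈ cycleSet G) :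
    Sym2.map f '' C ∈ cycleSet G' := by
  obtain ⟨v, p, hp, rfl⟩ := hC
  refine ⟨f v, p.map f, hp.map hf, ?_⟩
  ext e
  show _ ↔ e ∈ (p.map f).edges
  rw [Walk.edges_map, List.mem_map]
  rfl

/-- adding an isolated edge -/
lemma q_succ (m : ℕ) : q m ≤ q (m + 1) := by
  rcases q_spec m with h | ⟨n, G, e, he, hm, hk⟩
  · rw [h]; exact Nat.zero_le _
  let i : Fin n → Fin (n + 2) := Fin.castAdd 2
  have hi : Function.Injective i := Fin.castAdd_injective _ _
  let x : Fin (n + 2) := Fin.natAdd n 0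
  let y : Fin (n + 2) := Fin.natAdd n 1
  have hx : ∀ a, i a ≠ x := by
    intro a hab
    have := congrArg Fin.val hab
    simp [i, x] at this
    omega
  have hxy : x ≠ y := by
    intro hab
    have := congrArg Fin.val hab
    simp [x, y] at this
  have hne : ∀ e : Sym2 (Fin n), Sym2.map i e ≠ s(x, y) := by
    intro e
    induction e with
    | _ a b =>
      rw [Sym2.map_mk]
      intro h
      rw [Sym2.eq_iff] at h
      rcases h with ⟨h1, _⟩ | ⟨_, h1⟩
      · exact hx _ h1
      · exact hx _ h1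
  let E : Set (Sym2 (Fin (n + 2))) := (Sym2.map i '' G.edgeSet) ∪ {s(x, y)}
  let H : SimpleGraph (Fin (n + 2)) := SimpleGraph.fromEdgeSet E
  have hH : H.edgeSet = E := by
    show (SimpleGraph.fromEdgeSet E).edgeSet = E
    rw [SimpleGraph.edgeSet_fromEdgeSet]
    ext e
    simp only [Set.mem_sdiff]
    constructor
    · exact fun h => h.1
    · intro h
      refine ⟨h, ?_⟩
      rcases h with ⟨e', he', rfl⟩ | h
      · induction e' with
        | _ a b =>
          rw [Sym2.map_mk]
          intro hd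
          have hd' : i a = i b := hd
          exact (G.ne_of_adj he') (hi hd')
      · rw [Set.mem_singleton_iff] at h
        subst h
        intro hd
        have hd' : x = y := hd
        exact hxy hd'
  have hcard : H.edgeSet.ncard = m + 1 := by
    rw [hH]
    show ((Sym2.map i '' G.edgeSet) ∪ {s(x, y)}).ncard = m + 1
    rw [Set.ncard_union_eq _ (Set.toFinite _) (Set.toFinite _),
      Set.ncard_image_of_injective _ (Sym2.map.injective hi), Set.ncard_singleton, hm]
    rw [Set.disjoint_singleton_right]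
    rintro ⟨e', _, h⟩
    exact hne _ h
  let f : G →g H :=
    { toFun := i
      map_rel' := by
        intro a b h
        show (SimpleGraph.fromEdgeSet E).Adj (i a) (i b)
        rw [SimpleGraph.fromEdgeSet_adj]
        exact ⟨Or.inl ⟨s(a, b), h, rfl⟩, fun hab => h.ne (hi hab)⟩ }
  have h1 : (thru G e).ncard ≤ (thru H (Sym2.map i e)).ncard := by
    apply Set.ncard_le_ncard_of_injOn (fun C => Sym2.map i '' C) _ _ (Set.toFinite _)
    · rintro C ⟨hC, heC⟩
      exact ⟨cycleSet_map f hi hC, ⟨e, heC, rfl⟩⟩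
    · intro C _ D _ h
      exact (Set.image_injective.2 (Sym2.map.injective hi)) h
  rw [← hk]
  refine h1.trans ?_
  rw [← hcard]
  apply le_q
  rw [hH]
  exact Or.inl ⟨e, he, rfl⟩

lemma q_mono : Monotone q := monotone_nat_of_le_succ q_succ

/-- the triangle -/
lemma q_three : 1 ≤ q 3 := by
  have h01 : (⊤ : SimpleGraph (Fin 3)).Adj 0 1 := by simp
  have h12 : (⊤ : SimpleGraph (Fin 3)).Adj 1 2 := by simp
  have h20 : (⊤ : SimpleGraph (Fin 3)).Adj 2 0 := by simp
  let p : (⊤ : SimpleGraph (Fin 3)).Walk 0 0 := Walk.cons h01 (Walk.cons h12 (Walk.cons h20 Walk.nil))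
  have hp : p.IsCycle := by
    show (Walk.cons h01 (Walk.cons h12 (Walk.cons h20 Walk.nil))).IsCycle
    rw [Walk.cons_isCycle_iff]
    simp [Walk.cons_isPath_iff]
  have h1 : (⊤ : SimpleGraph (Fin 3)).edgeSet.ncard = 3 := by
    classical
    rw [← SimpleGraph.coe_edgeFinset, Set.ncard_coe_finset]
    decide
  have h2 : {e | e ∈ p.edges} ∈ thru (⊤ : SimpleGraph (Fin 3)) s(0, 1) := by
    refine ⟨⟨0, p, hp, rfl⟩, ?_⟩
    show s(0, 1) ∈ (Walk.cons h01 (Walk.cons h12 (Walk.cons h20 Walk.nil))).edges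
    simp
  have h3 : 1 ≤ (thru (⊤ : SimpleGraph (Fin 3)) s(0, 1)).ncard := by
    rw [Nat.one_le_iff_ne_zero, Ne, Set.ncard_eq_zero (Set.toFinite _)]
    intro h
    rw [h] at h2
    exact h2
  refine h3.trans ?_
  have h4 := le_q (⊤ : SimpleGraph (Fin 3)) (e := s(0, 1)) h01
  rwa [h1] at h4

lemma three_le_ncard {V : Type} [Finite V] {G : SimpleGraph V} {C : Set (Sym2 V)}
    (h : C ∈ cycleSet G) : 3 ≤ C.ncard := by
  classical
  obtain ⟨v, p, hp, rfl⟩ := h
  have h1 : ({e | e ∈ p.edges} : Set (Sym2 V)) = (p.edges.toFinset : Set (Sym2 V)) := by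
    ext e; simp
  rw [h1, Set.ncard_coe_finset, List.toFinset_card_of_nodup hp.edges_nodup, Walk.length_edges]
  exact hp.three_le_length

lemma numCycles_le_q {n : ℕ} (G : SimpleGraph (Fin n)) :
    3 * numCycles G ≤ G.edgeSet.ncard * q G.edgeSet.ncard := by
  classical
  unfold numCycles
  have hfin : G.edgeSet.Finite := Set.toFinite _
  have hcs : (cycleSet G).Finite := Set.toFinite _
  rw [Set.ncard_eq_toFinset_card _ hcs]
  have h1 : ∑ C ∈ hcs.toFinset, (hfin.toFinset.filter (fun e => e ∈ C)).card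
      = ∑ e ∈ hfin.toFinset, (hcs.toFinset.filter (fun C => e ∈ C)).card := by
    have := Finset.sum_card_bipartiteAbove_eq_sum_card_bipartiteBelow
      (s := hcs.toFinset) (t := hfin.toFinset) (fun (C : Set (Sym2 (Fin n))) e => e ∈ C)
    exact this
  have h2 : 3 * hcs.toFinset.card ≤ ∑ C ∈ hcs.toFinset, (hfin.toFinset.filter (fun e => e ∈ C)).card := by
    rw [mul_comm, ← smul_eq_mul]
    apply Finset.card_nsmul_le_sum
    intro C hC
    have hC' : C ∈ cycleSet G := hcs.mem_toFinset.1 hC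
    have h3 := three_le_ncard hC'
    have h4 : C = (hfin.toFinset.filter (fun e => e ∈ C) : Set (Sym2 (Fin n))) := by
      ext e
      rw [Finset.mem_coe, Finset.mem_filter, hfin.mem_toFinset]
      exact ⟨fun h => ⟨cycle_sub hC' h, h⟩, fun h => h.2⟩
    rw [h4, Set.ncard_coe_finset] at h3
    exact h3
  refine h2.trans ?_
  rw [h1]
  have h5 : G.edgeSet.ncard = hfin.toFinset.card := Set.ncard_eq_toFinset_card _ hfin
  refine (Finset.sum_le_card_nsmul _ _ (q G.edgeSet.ncard) ?_).trans (by rw [smul_eq_mul, ← h5])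
  intro e he
  have h6 := le_q G (hfin.mem_toFinset.1 he)
  refine le_trans (le_of_eq ?_) h6
  rw [← Set.ncard_coe_finset]
  congr 1
  ext C
  rw [Finset.mem_coe, Finset.mem_filter, hcs.mem_toFinset]
  rfl

lemma maxCycles_bdd (m : ℕ) : BddAbove {c : ℕ | ∃ (n : ℕ) (G : SimpleGraph (Fin n)),
    G.edgeSet.ncard = m ∧ numCycles G = c} := by
  refine ⟨2 ^ m, ?_⟩
  rintro c ⟨n, G, rfl, rfl⟩
  exact cycleSet_ncard_le G

lemma maxCycles_le (m : ℕ) : 3 * maxCycles m ≤ m * q m := by
  unfold maxCycles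
  rcases Set.eq_empty_or_nonempty {c : ℕ | ∃ (n : ℕ) (G : SimpleGraph (Fin n)),
    G.edgeSet.ncard = m ∧ numCycles G = c} with h | h
  · rw [h]; simp
  · obtain ⟨n, G, hG, hc⟩ := Nat.sSup_mem h (maxCycles_bdd m)
    rw [← hc]
    have := numCycles_le_q G
    rwa [hG] at this

lemma q_le_maxCycles (m : ℕ) : q m ≤ maxCycles m := by
  rcases q_spec m with h | ⟨n, G, e, he, hm, hk⟩
  · rw [h]; exact Nat.zero_le _
  · rw [← hk]
    refine (thru_ncard_le G e).trans ?_
    exact le_csSup (maxCycles_bdd m) ⟨n, G, hm, rfl⟩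

end Pool.Agent.CycL
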